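import Pool.Agent.H474R2.PG.Final

set_option autoImplicit false

/-!
# The error term of the conjectured formula for the number of primes `n^2+1` is not `o(log log N)`

From the long strings of composite values of an irreducible polynomial
(`Pool.Agent.H474R2.PG.composite_strings` of the starting library); the passage from strings to the error term is the
one of `Pool.Agent.Y890.CF.omega` (there for `x^2+x+A`), here with an arbitrary comparison function.
-/

namespace Pool.Agent.U847.Q484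

open Polynomial Finset MeasureTheory

/-- the number of the `n` with `1 ≤ n ≤ N` and `n^2+1` prime -/
def P1 (N : ℕ) : ℕ := ((Icc 1 N).filter (fun n : ℕ => (n ^ 2 + 1).Prime)).card

/-- the polynomial `x^2+1` -/
noncomputable def F : ℤ[X] := X ^ 2 + 1

lemma F_eval (x : ℤ) : F.eval x = x ^ 2 + 1 := by simp [F]

lemma F_eq : F = C 1 * X ^ 2 + C 0 * X + C (1 : ℤ) := by simp [F]

lemma F_deg : F.natDegree = 2 := by
  rw [F_eq]
  exact natDegree_quadratic one_ne_zero

lemma F_monic : F.Monic := by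
  rw [Monic, F_eq]
  exact leadingCoeff_quadratic one_ne_zero

lemma F_irr : Irreducible F := by
  rw [F_monic.irreducible_iff_roots_eq_zero_of_degree_le_three (by rw [F_deg])
    (by rw [F_deg]; norm_num)]
  rw [Multiset.eq_zero_iff_forall_notMem]
  intro a ha
  have h := (mem_roots'.1 ha).2
  rw [IsRoot, F_eval] at h
  nlinarith [sq_nonneg a]

/-- long intervals without primes `n^2+1` -/
theorem gap : ∃ c : ℝ, 0 < c ∧ ∃ Y₀ : ℝ, ∀ Y : ℝ, Y₀ ≤ Y → ∀ M : ℕ, Y ≤ M →
    ∃ x : ℕ, M < x ∧ (x : ℝ) + c * Real.log Y * Real.log (Real.log Y) ≤ M + Y ∧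
      ∀ k : ℕ, (k : ℝ) ≤ c * Real.log Y * Real.log (Real.log Y) → ¬ ((x + k) ^ 2 + 1).Prime := by
  obtain ⟨c, hc, Y₀, h⟩ := Pool.Agent.H474R2.PG.composite_strings F F_irr (by rw [F_deg]; norm_num)
    (by rw [F_monic.leadingCoeff]; norm_num)
  refine ⟨c, hc, Y₀, fun Y hY M hM => ?_⟩
  obtain ⟨x, hx, hx2, hk⟩ := h Y hY M (by exact_mod_cast hM)
  lift x to ℕ using (by have := Int.natCast_nonneg M; omega)
  refine ⟨x, by exact_mod_cast hx, by exact_mod_cast hx2, fun k hk2 hp => ?_⟩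
  obtain ⟨p, hp1, -, hp3, hp4⟩ := hk k hk2
  rw [F_eval] at hp3 hp4
  have e : ((x : ℤ) + (k : ℤ)) ^ 2 + 1 = (((x + k) ^ 2 + 1 : ℕ) : ℤ) := by
    push_cast; ring
  rw [e] at hp3 hp4
  have h1 : p ∣ (x + k) ^ 2 + 1 := by exact_mod_cast hp3
  have h2 : p < (x + k) ^ 2 + 1 := by exact_mod_cast hp4
  rcases (Nat.dvd_prime hp).1 h1 with h3 | h3
  · exact hp1.one_lt.ne' h3
  · omega

lemma P_eq_of_gap {a b : ℕ} (hab : a ≤ b) (h : ∀ n, a < n → n ≤ b → ¬ (n ^ 2 + 1).Prime) :
    P1 b = P1 a := by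
  unfold P1
  congr 1
  ext n
  simp only [mem_filter, mem_Icc]
  constructor
  · rintro ⟨h1, h3⟩
    refine ⟨?_, h3⟩
    by_contra h4
    exact h n (by omega) (by omega) h3
  · rintro ⟨h1, h3⟩
    exact ⟨by omega, h3⟩

/-- increments of a comparison function -/
lemma incr {κ : ℝ} (hκ : 0 ≤ κ) {G : ℕ → ℝ} (hG : ∀ n : ℕ, 2 ≤ n → κ / Real.log (n + 1) ≤ G (n + 1) - G n)
    {a : ℕ} (ha : 2 ≤ a) (k : ℕ) :
    κ * (k / Real.log ((a + k : ℕ) : ℝ)) ≤ G (a + k) - G a := by
  induction k with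
  | zero => simp
  | succ k ih =>
    have h1 := hG (a + k) (by omega)
    have hl0 : 0 < Real.log ((a + k : ℕ) : ℝ) := Real.log_pos (by
      have : (2 : ℝ) ≤ ((a + k : ℕ) : ℝ) := by exact_mod_cast (show 2 ≤ a + k by omega)
      linarith)
    have hl : Real.log ((a + k : ℕ) : ℝ) ≤ Real.log ((a + (k + 1) : ℕ) : ℝ) := by
      apply Real.log_le_log
      · have : (0 : ℕ) < a + k := by omega
        exact_mod_cast this
      · exact_mod_cast (show a + k ≤ a + (k + 1) by omega)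
    have e1 : (((a + k : ℕ) : ℝ) + 1) = ((a + (k + 1) : ℕ) : ℝ) := by push_cast; ring
    rw [e1] at h1
    have e2 : a + k + 1 = a + (k + 1) := by ring
    rw [e2] at h1
    have h2 : κ * (((k + 1 : ℕ) : ℝ) / Real.log ((a + (k + 1) : ℕ) : ℝ)) =
        κ * (k / Real.log ((a + (k + 1) : ℕ) : ℝ)) + κ / Real.log ((a + (k + 1) : ℕ) : ℝ) := by
      push_cast
      ring
    have h3 : κ * ((k : ℝ) / Real.log ((a + (k + 1) : ℕ) : ℝ)) ≤ κ * (k / Real.log ((a + k : ℕ) : ℝ)) := by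
      apply mul_le_mul_of_nonneg_left _ hκ
      exact div_le_div_of_nonneg_left (Nat.cast_nonneg k) hl0 hl
    rw [h2]
    linarith

/-- **Lower bound for the error term**, for an arbitrary comparison function. -/
theorem omega : ∃ c : ℝ, 0 < c ∧ ∃ Y₀ : ℝ, ∀ (κ : ℝ) (G : ℕ → ℝ), 0 ≤ κ →
    (∀ n : ℕ, 2 ≤ n → κ / Real.log (n + 1) ≤ G (n + 1) - G n) → ∀ (Y : ℝ) (x : ℕ), Y₀ ≤ Y → Y ≤ x →
    ∃ N : ℕ, x ≤ N ∧ (N : ℝ) ≤ x + Y ∧
      c * κ * (Real.log Y / Real.log x) * Real.log (Real.log Y) ≤ |(P1 N : ℝ) - G N| := by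
  obtain ⟨c, hc, Y₀, h⟩ := gap
  refine ⟨c / 5, by positivity, max Y₀ 3, fun κ G hκ hG Y x hY hYx => ?_⟩
  have hY3 : (3 : ℝ) ≤ Y := (le_max_right _ _).trans hY
  obtain ⟨y, hy1, hy2, hy3⟩ := h Y ((le_max_left _ _).trans hY) x hYx
  have hlogY : 1 < Real.log Y := by
    rw [Real.lt_log_iff_exp_lt (by linarith)]
    linarith [Real.exp_one_lt_d9]
  have hllY : 0 < Real.log (Real.log Y) := Real.log_pos hlogY
  set H : ℝ := c * Real.log Y * Real.log (Real.log Y) with hH
  have hH0 : 0 < H := by positivity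
  have hx3 : (3 : ℝ) ≤ x := hY3.trans hYx
  have hx3' : 3 ≤ x := by exact_mod_cast hx3
  set K : ℕ := ⌊H⌋₊ with hK
  have hK1 : (K : ℝ) ≤ H := Nat.floor_le hH0.le
  have hK2 : H < K + 1 := Nat.lt_floor_add_one H
  obtain ⟨a, rfl⟩ : ∃ a, y = a + 1 := ⟨y - 1, by omega⟩
  have hax : x ≤ a := by omega
  have hPab : P1 (a + (K + 1)) = P1 a := by
    apply P_eq_of_gap (by omega)
    intro n hn1 hn2
    have h1 : n = a + 1 + (n - (a + 1)) := by omega
    rw [h1]
    apply hy3
    have h2 : n - (a + 1) ≤ K := by omega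
    have h3 : ((n - (a + 1) : ℕ) : ℝ) ≤ K := by exact_mod_cast h2
    linarith
  have hyb : ((a + (K + 1) : ℕ) : ℝ) ≤ x + Y := by
    push_cast at hy2 ⊢; linarith
  have hb1 : ((a + (K + 1) : ℕ) : ℝ) ≤ 2 * x := by linarith
  have hlx : 0 < Real.log x := Real.log_pos (by linarith)
  have hb2 : ((a + (K + 1) : ℕ) : ℝ) ≤ (x : ℝ) ^ 2 := by nlinarith
  have hb0 : (1 : ℝ) < ((a + (K + 1) : ℕ) : ℝ) := by
    exact_mod_cast (show 1 < a + (K + 1) by omega)
  have hlogb : Real.log ((a + (K + 1) : ℕ) : ℝ) ≤ 2 * Real.log x := by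
    have h1 := Real.log_le_log (by linarith) hb2
    rw [Real.log_pow] at h1
    exact_mod_cast h1
  have hlogb0 : 0 < Real.log ((a + (K + 1) : ℕ) : ℝ) := Real.log_pos hb0
  have hL := incr hκ hG (a := a) (by omega) (K + 1)
  have hL2 : κ * (H / (2 * Real.log x)) ≤ G (a + (K + 1)) - G a := by
    refine le_trans ?_ hL
    apply mul_le_mul_of_nonneg_left _ hκ
    rw [div_le_div_iff₀ (by positivity) hlogb0]
    push_cast
    have : H ≤ (K : ℝ) + 1 := hK2.le
    push_cast at hlogb hlogb0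
    nlinarith
  have htar : c / 5 * κ * (Real.log Y / Real.log x) * Real.log (Real.log Y) =
      κ * (H / (2 * Real.log x)) * (2 / 5) := by
    rw [hH]; field_simp
  have hnn : 0 ≤ κ * (H / (2 * Real.log x)) := by positivity
  by_cases hcase : κ * (H / (2 * Real.log x)) * (2 / 5) ≤ |(P1 (a + (K + 1)) : ℝ) - G (a + (K + 1))|
  · refine ⟨a + (K + 1), by omega, hyb, ?_⟩
    rw [htar]; exact hcase
  · have hyb2 : (a : ℝ) ≤ x + Y := by push_cast at hyb; linarith
    refine ⟨a, by omega, hyb2, ?_⟩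
    rw [htar]
    push Not at hcase
    rw [hPab] at hcase
    have h1 := neg_abs_le ((P1 a : ℝ) - G (a + (K + 1)))
    have h2 := le_abs_self ((P1 a : ℝ) - G a)
    linarith

/-- the comparison function of the problem -/
lemma li_incr (C : ℝ) (hC : 0 ≤ C) (n : ℕ) (hn : 2 ≤ n) :
    C / Real.log (n + 1) ≤ C * (∫ t in (2 : ℝ)..((n + 1 : ℕ) : ℝ), 1 / Real.log t) -
      C * ∫ t in (2 : ℝ)..(n : ℝ), 1 / Real.log t := by
  have hn' : (2 : ℝ) ≤ n := by exact_mod_cast hn
  have hint : ∀ a b : ℝ, 2 ≤ a → 2 ≤ b →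
      IntervalIntegrable (fun t : ℝ => 1 / Real.log t) volume a b := by
    intro a b ha hb
    apply ContinuousOn.intervalIntegrable
    intro t ht
    have ht2 : 2 ≤ t := by
      rcases le_total a b with h | h
      · rw [Set.uIcc_of_le h] at ht; linarith [ht.1]
      · rw [Set.uIcc_of_ge h] at ht; linarith [ht.1]
    have hl : 0 < Real.log t := Real.log_pos (by linarith)
    apply ContinuousAt.continuousWithinAt
    exact continuousAt_const.div (Real.continuousAt_log (by linarith)) hl.ne'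
  rw [← mul_sub, intervalIntegral.integral_interval_sub_left (hint _ _ le_rfl (by push_cast; linarith))
    (hint _ _ le_rfl hn'), div_eq_mul_one_div]
  apply mul_le_mul_of_nonneg_left _ hC
  have h1 : 1 / Real.log ((n : ℝ) + 1) = ∫ _t in (n : ℝ)..((n + 1 : ℕ) : ℝ), 1 / Real.log ((n : ℝ) + 1) := by
    rw [intervalIntegral.integral_const]
    push_cast
    rw [smul_eq_mul]; ring
  rw [h1]
  apply intervalIntegral.integral_mono_on (by push_cast; linarith) (by simp)
    (hint _ _ hn' (by push_cast; linarith))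
  intro t ht
  have ht0 : (2 : ℝ) ≤ t := hn'.trans ht.1
  have hl : 0 < Real.log t := Real.log_pos (by linarith)
  have ht1 : t ≤ (n : ℝ) + 1 := by have := ht.2; push_cast at this; exact this
  exact one_div_le_one_div_of_le hl (Real.log_le_log (by linarith) ht1)

end Pool.Agent.U847.Q484
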